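import Pool.Agent.helper93.TV.Spec2

/-! TV, row TU: the transport is unitary. -/

set_option autoImplicit false

namespace Pool.Agent.helper93.TV

open BigOperators Finset Matrix

private theorem TU_swap {V κ : Type} [Fintype V] (L : Finset κ) (A B : V → V → ℂ)
    (P Q : V → κ → V → ℂ) :
    ∑ e', ∑ r ∈ L, ∑ l', (∑ l'', A e' l'' * P l'' r l') * star (∑ l₂, B e' l₂ * Q l₂ r l') =
      ∑ e', ∑ l'', ∑ l₂, (A e' l'' * star (B e' l₂)) *
        ∑ r ∈ L, ∑ l', P l'' r l' * star (Q l₂ r l') := by
  refine Finset.sum_congr rfl fun e' _ => ?_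
  have h1 : ∀ r ∈ L, ∑ l', (∑ l'', A e' l'' * P l'' r l') * star (∑ l₂, B e' l₂ * Q l₂ r l') =
      ∑ l'', ∑ l₂, ∑ l', (A e' l'' * star (B e' l₂)) * (P l'' r l' * star (Q l₂ r l')) := by
    intro r _
    have h2 : ∀ l', (∑ l'', A e' l'' * P l'' r l') * star (∑ l₂, B e' l₂ * Q l₂ r l') =
        ∑ l'', ∑ l₂, (A e' l'' * star (B e' l₂)) * (P l'' r l' * star (Q l₂ r l')) := by
      intro l'
      rw [star_sum, Finset.sum_mul_sum]
      refine Finset.sum_congr rfl fun l'' _ => Finset.sum_congr rfl fun l₂ _ => ?_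
      rw [star_mul']
      ring
    simp only [h2]
    rw [Finset.sum_comm]
    refine Finset.sum_congr rfl fun l'' _ => ?_
    rw [Finset.sum_comm]
  rw [Finset.sum_congr rfl h1, Finset.sum_comm]
  refine Finset.sum_congr rfl fun l'' _ => ?_
  rw [Finset.sum_comm]
  refine Finset.sum_congr rfl fun l₂ _ => ?_
  rw [Finset.mul_sum]
  refine Finset.sum_congr rfl fun r _ => ?_
  rw [Finset.mul_sum]

private theorem TU_swap2 {V κ : Type} [Fintype V] (L : Finset κ) (A B : V → V → V → ℂ)
    (P Q : V → κ → ℂ) :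
    ∑ l, ∑ e, ∑ r ∈ L, star (∑ l'', A l e l'' * P l'' r) * (∑ l₂, B l e l₂ * Q l₂ r) =
      ∑ l'', ∑ l₂, (∑ r ∈ L, star (P l'' r) * Q l₂ r) * ∑ l, ∑ e, star (A l e l'') * B l e l₂ := by
  have h0 : ∀ l e r, star (∑ l'', A l e l'' * P l'' r) * (∑ l₂, B l e l₂ * Q l₂ r) =
      ∑ l'', ∑ l₂, (star (P l'' r) * Q l₂ r) * (star (A l e l'') * B l e l₂) := by
    intro l e r
    rw [star_sum, Finset.sum_mul_sum]
    refine Finset.sum_congr rfl fun l'' _ => Finset.sum_congr rfl fun l₂ _ => ?_
    rw [star_mul']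
    ring
  have h1 : ∀ l e, ∑ r ∈ L, star (∑ l'', A l e l'' * P l'' r) * (∑ l₂, B l e l₂ * Q l₂ r) =
      ∑ l'', ∑ l₂, (∑ r ∈ L, star (P l'' r) * Q l₂ r) * (star (A l e l'') * B l e l₂) := by
    intro l e
    simp only [h0]
    rw [Finset.sum_comm]
    refine Finset.sum_congr rfl fun l'' _ => ?_
    rw [Finset.sum_comm]
    refine Finset.sum_congr rfl fun l₂ _ => ?_
    rw [Finset.sum_mul]
  have h2 : ∀ l, ∑ e, ∑ r ∈ L, star (∑ l'', A l e l'' * P l'' r) * (∑ l₂, B l e l₂ * Q l₂ r) =
      ∑ l'', ∑ l₂, (∑ r ∈ L, star (P l'' r) * Q l₂ r) * ∑ e, star (A l e l'') * B l e l₂ := by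
    intro l
    simp only [h1]
    rw [Finset.sum_comm]
    refine Finset.sum_congr rfl fun l'' _ => ?_
    rw [Finset.sum_comm]
    refine Finset.sum_congr rfl fun l₂ _ => ?_
    rw [Finset.mul_sum]
  simp only [h2]
  rw [Finset.sum_comm]
  refine Finset.sum_congr rfl fun l'' _ => ?_
  rw [Finset.sum_comm]
  refine Finset.sum_congr rfl fun l₂ _ => ?_
  rw [Finset.mul_sum]

private theorem TU_len {V : Type} [Fintype V] [DecidableEq V] {n : ℕ} {p : List V}
    (h : p ∈ lists V (n + 1)) : ∃ e q, p = e :: q ∧ q ∈ lists V n := by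
  rw [mem_lists] at h
  cases p with
  | nil => simp at h
  | cons e q =>
    refine ⟨e, q, rfl, ?_⟩
    rw [mem_lists]
    simpa using h

private theorem TU_zero {V : Type} [Fintype V] [DecidableEq V] {p : List V}
    (h : p ∈ lists V 0) : p = [] := by
  rw [mem_lists] at h
  exact List.length_eq_zero_iff.1 h

theorem TU : TU_stmt := by
  intro I V _ _ _ _ D X c hc n
  constructor
  · induction n with
    | zero =>
      intro l p l₁ p₁ _ hp hp₁ _
      rw [TU_zero hp, TU_zero hp₁, sum_lists_zero]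
      simp only [tp_nil, and_true]
      rw [Finset.sum_eq_single l]
      · by_cases h : l = l₁
        · subst h
          simp
        · have h' : ¬ l₁ = l := fun hh => h hh.symm
          simp [h, h']
      · intro b _ hb
        have : ¬ l = b := fun hh => hb hh.symm
        simp [this]
      · intro h
        exact absurd (Finset.mem_univ l) h
    | succ n ih =>
      intro l p l₁ p₁ hl hp hp₁ hok
      obtain ⟨e, r, rfl, hr⟩ := TU_len hp
      obtain ⟨e₁, r₁, rfl, hr₁⟩ := TU_len hp₁
      obtain ⟨o1, o2, o3⟩ := hok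
      rw [sum_lists_succ]
      simp only [tp_cons]
      rw [TU_swap (lists V n) (fun e' l'' => c l e e' l'') (fun e' l₂ => c l₁ e₁ e' l₂)
        (fun l'' r' l' => tp c l'' r r' l') (fun l₂ r' l' => tp c l₂ r₁ r' l')]
      have key : ∀ e' l'' l₂, (c l e e' l'' * star (c l₁ e₁ e' l₂)) *
          ∑ r' ∈ lists V n, ∑ l', tp c l'' r r' l' * star (tp c l₂ r₁ r' l') =
          (c l e e' l'' * star (c l₁ e₁ e' l₂)) * (if l'' = l₂ ∧ r = r₁ then 1 else 0) := by
        intro e' l'' l₂
        by_cases h : c l e e' l'' = 0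
        · rw [h, zero_mul, zero_mul, zero_mul]
        · obtain ⟨⟨c1, c2, c3, c4, c5, c6⟩, hX1, hX2⟩ := hc.supp _ _ _ _ h
          rw [ih l'' r l₂ r₁ (c3 ▸ hX1) hr hr₁ (c6 ▸ o3)]
      simp only [key]
      by_cases h : r = r₁
      · subst h
        have e1 : ∀ e' l'', ∑ l₂, (c l e e' l'' * star (c l₁ e₁ e' l₂)) *
            (if l'' = l₂ ∧ r = r then (1 : ℂ) else 0) = c l e e' l'' * star (c l₁ e₁ e' l'') := by
          intro e' l''
          rw [Finset.sum_eq_single l'']
          · simp
          · intro b _ hb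
            have : ¬ l'' = b := fun hh => hb hh.symm
            simp [this]
          · intro h
            exact absurd (Finset.mem_univ _) h
        rw [Finset.sum_congr rfl fun e' _ => Finset.sum_congr rfl fun l'' _ => e1 e' l'',
          hc.row l e l₁ e₁ o1.symm hl o2]
        by_cases h2 : l = l₁ ∧ e = e₁
        · rw [if_pos h2, if_pos ⟨h2.1, by rw [h2.2]⟩]
        · rw [if_neg h2, if_neg]
          rintro ⟨h3, h4⟩
          exact h2 ⟨h3, (List.cons.inj h4).1⟩
      · rw [if_neg (fun hh => h (List.cons.inj hh.2).2)]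
        refine Finset.sum_eq_zero fun e' _ => Finset.sum_eq_zero fun l'' _ =>
          Finset.sum_eq_zero fun l₂ _ => ?_
        rw [if_neg (fun hh => h hh.2), mul_zero]
  · induction n with
    | zero =>
      intro p' l' p₁' l₁' _ hp hp₁ _
      rw [TU_zero hp, TU_zero hp₁]
      simp only [sum_lists_zero, tp_nil, true_and]
      rw [Finset.sum_eq_single l']
      · simp
      · intro b _ hb
        simp [hb]
      · intro h
        exact absurd (Finset.mem_univ _) h
    | succ n ih =>
      intro p' l' p₁' l₁' hl hp hp₁ hok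
      obtain ⟨e', r', rfl, hr'⟩ := TU_len hp
      obtain ⟨e₁', r₁', rfl, hr₁'⟩ := TU_len hp₁
      obtain ⟨a, ⟨o1, o2, o3⟩, o4⟩ := hok
      have o5 : D.en (D.t e') r' = D.s2 l' := o4
      simp only [sum_lists_succ, tp_cons]
      rw [TU_swap2 (lists V n) (fun l e l'' => c l e e' l'') (fun l e l₂ => c l e e₁' l₂)
        (fun l'' r => tp c l'' r r' l') (fun l₂ r => tp c l₂ r r₁' l₁')]
      have key : ∀ l'' l₂, (∑ r ∈ lists V n, star (tp c l'' r r' l') * tp c l₂ r r₁' l₁') *
          ∑ l, ∑ e, star (c l e e' l'') * c l e e₁' l₂ =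
          (∑ r ∈ lists V n, star (tp c l'' r r' l') * tp c l₂ r r₁' l₁') *
            (if e' = e₁' ∧ l'' = l₂ then 1 else 0) := by
        intro l'' l₂
        by_cases h : ∃ r, tp c l'' r r' l' ≠ 0
        · obtain ⟨r, hr⟩ := h
          obtain ⟨s1, s2, s3, s4, s5, s6⟩ := tp_supp D X c hc l'' l' r r' hr
          have ht : D.t e' = D.s2 l'' := by
            cases r' with
            | nil =>
              have h1 : D.t e' = D.s2 l' := o5
              have h2 : D.s2 l' = D.s2 l'' := s4
              rw [h1, h2]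
            | cons e₂ r₂ =>
              have h1 : D.s1 e₂ = D.t e' := o3.1
              have h2 : D.s1 e₂ = D.s2 l'' := s2.1
              rw [← h1, h2]
          rw [hc.col e' l'' e₁' l₂ ht (s3 ▸ hl) o2]
        · have h0 : ∑ r ∈ lists V n, star (tp c l'' r r' l') * tp c l₂ r r₁' l₁' = 0 := by
            refine Finset.sum_eq_zero fun r _ => ?_
            have : tp c l'' r r' l' = 0 := by
              by_contra hh
              exact h ⟨r, hh⟩
            rw [this, star_zero, zero_mul]
          rw [h0, zero_mul, zero_mul]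
      simp only [key]
      by_cases h : e' = e₁'
      · subst h
        have e1 : ∀ l'', ∑ l₂, (∑ r ∈ lists V n, star (tp c l'' r r' l') * tp c l₂ r r₁' l₁') *
            (if e' = e' ∧ l'' = l₂ then (1 : ℂ) else 0) =
            ∑ r ∈ lists V n, star (tp c l'' r r' l') * tp c l'' r r₁' l₁' := by
          intro l''
          rw [Finset.sum_eq_single l'']
          · simp
          · intro b _ hb
            have : ¬ l'' = b := fun hh => hb hh.symm
            simp [this]
          · intro h
            exact absurd (Finset.mem_univ _) h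
        rw [Finset.sum_congr rfl fun l'' _ => e1 l'', ih r' l' r₁' l₁' hl hr' hr₁' ⟨D.t e', o3, o5⟩]
        by_cases h2 : r' = r₁' ∧ l' = l₁'
        · rw [if_pos h2, if_pos ⟨by rw [h2.1], h2.2⟩]
        · rw [if_neg h2, if_neg]
          rintro ⟨h3, h4⟩
          exact h2 ⟨(List.cons.inj h3).2, h4⟩
      · rw [if_neg (fun hh => h (List.cons.inj hh.1).1)]
        refine Finset.sum_eq_zero fun l'' _ => Finset.sum_eq_zero fun l₂ _ => ?_
        rw [if_neg (fun hh => h hh.1), mul_zero]

end Pool.Agent.helper93.TV
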